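import Mathlib

set_option autoImplicit false

namespace Pool.Agent.Work.MP_d9e015_nt

open PadicInt

/-- odd naturals are units of the 2-adic integers -/
lemma odd_unit (m : ℕ) (hm : Odd m) : ∃ i : ℤ_[2], (m : ℤ_[2]) * i = 1 := by
  have h : IsUnit (m : ℤ_[2]) := by
    rw [PadicInt.isUnit_iff]
    have h1 : ‖((m : ℤ) : ℤ_[2])‖ ≤ 1 := PadicInt.norm_le_one _
    by_contra hne
    have h2 : ‖((m : ℤ) : ℤ_[2])‖ < 1 := lt_of_le_of_ne h1 (by push_cast; exact hne)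
    rw [PadicInt.norm_int_lt_one_iff_dvd] at h2
    obtain ⟨c, hc⟩ := hm
    omega
  exact h.exists_right_inv

/-- residue modulo `2^k` gives a decomposition -/
lemma res (k : ℕ) (W : ℤ_[2]) (r : ℕ) (h : toZModPow k W = (r : ZMod (2 ^ k))) :
    ∃ c : ℤ_[2], W = (r : ℤ_[2]) + 2 ^ k * c := by
  have h1 : toZModPow k (W - (r : ℤ_[2])) = 0 := by
    rw [map_sub, h, map_natCast, sub_self]
  rw [← RingHom.mem_ker, ker_toZModPow, Ideal.mem_span_singleton] at h1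
  obtain ⟨c, hc⟩ := h1
  refine ⟨c, ?_⟩
  push_cast at hc
  linear_combination hc

/-- For `n` not divisible by `2^k`, `4 n^2` divides `(2^k)^2` in the 2-adic integers. -/
lemma four_sq_dvd (k n : ℕ) (hn : ¬ 2 ^ k ∣ n) :
    ∃ e : ℤ_[2], (((2 : ℕ) ^ k : ℕ) : ℤ_[2]) ^ 2 = 4 * (n : ℤ_[2]) ^ 2 * e := by
  have hn0 : n ≠ 0 := by
    rintro rfl
    exact hn (dvd_zero _)
  obtain ⟨s, m, hm, rfl⟩ := Nat.exists_eq_two_pow_mul_odd hn0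
  have hs : s < k := by
    by_contra h
    push Not at h
    exact hn (dvd_mul_of_dvd_left (pow_dvd_pow 2 h) m)
  obtain ⟨i, hi⟩ := odd_unit m hm
  obtain ⟨d, rfl⟩ := Nat.exists_eq_add_of_lt hs
  refine ⟨4 ^ d * i ^ 2, ?_⟩
  push_cast
  have h4 : (4 : ℤ_[2]) ^ d = (2 ^ d) ^ 2 := by
    rw [← pow_mul, mul_comm, pow_mul]; norm_num
  rw [h4]
  have h5 : (4 : ℤ_[2]) * (2 ^ s * (m : ℤ_[2])) ^ 2 * ((2 ^ d) ^ 2 * i ^ 2)
      = (2 ^ s * 2 ^ d * 2) ^ 2 * ((m : ℤ_[2]) * i) ^ 2 := by ring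
  rw [h5, hi]
  rw [show s + d + 1 = s + d + 1 from rfl, pow_succ, pow_add]
  ring

/-- The recurrence satisfied by `z n = n x n`. -/
def Rec (Z : ℕ → ℚ_[2]) : Prop :=
  ∀ n : ℕ, 1 ≤ n → Z (n + 1) * (n : ℚ_[2]) ^ 2 = Z n * ((n : ℚ_[2]) ^ 2 + Z n)

/-- Between consecutive multiples of `2^k` nothing changes modulo `64` (relatively). -/
lemma seg (Z : ℕ → ℚ_[2]) (hZ : Rec Z) (k t : ℕ) (V : ℤ_[2])
    (h0 : Z (t * 2 ^ k + 1) = 16 * (((2 : ℕ) ^ k : ℕ) : ℚ_[2]) ^ 2 * (V : ℚ_[2])) :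
    ∀ j, 1 ≤ j → j ≤ 2 ^ k → ∃ b : ℤ_[2],
      Z (t * 2 ^ k + j) = 16 * (((2 : ℕ) ^ k : ℕ) : ℚ_[2]) ^ 2 * ((V * (1 + 64 * b) : ℤ_[2]) : ℚ_[2]) := by
  intro j hj
  induction j, hj using Nat.le_induction with
  | base =>
    intro _
    refine ⟨0, ?_⟩
    rw [h0]
    simp
  | succ j hj ih =>
    intro hj2
    obtain ⟨b, hb⟩ := ih (by omega)
    have hndvd : ¬ 2 ^ k ∣ (t * 2 ^ k + j) := by
      intro h
      have h1 : 2 ^ k ∣ j := (Nat.dvd_add_right (Dvd.intro_left t rfl)).mp h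
      have h2 := Nat.le_of_dvd (by omega) h1
      omega
    obtain ⟨e, he⟩ := four_sq_dvd k _ hndvd
    set n : ℕ := t * 2 ^ k + j with hn
    have hn1 : 1 ≤ n := by omega
    have hn0 : (n : ℚ_[2]) ≠ 0 := by
      have : n ≠ 0 := by omega
      exact_mod_cast this
    have hrec := hZ n hn1
    have he' : (((2 : ℕ) ^ k : ℕ) : ℚ_[2]) ^ 2 = 4 * (n : ℚ_[2]) ^ 2 * (e : ℚ_[2]) := by
      have := congrArg (fun x : ℤ_[2] => (x : ℚ_[2])) he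
      push_cast at this ⊢
      exact this
    refine ⟨b + e * V * (1 + 64 * b) + 64 * b * (e * V * (1 + 64 * b)), ?_⟩
    have hcancel : Z (n + 1) * (n : ℚ_[2]) ^ 2
        = (16 * (((2 : ℕ) ^ k : ℕ) : ℚ_[2]) ^ 2
          * ((V * (1 + 64 * (b + e * V * (1 + 64 * b) + 64 * b * (e * V * (1 + 64 * b)))) : ℤ_[2]) : ℚ_[2]))
          * (n : ℚ_[2]) ^ 2 := by
      have h64 : ((64 : ℤ_[2]) : ℚ_[2]) = 64 := rfl
      rw [hrec, hb]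
      push_cast
      push_cast at he'
      rw [he', h64]
      ring
    have := mul_right_cancel₀ (pow_ne_zero 2 hn0) hcancel
    rw [← add_assoc]
    exact this

/-- One step from a multiple of `2^k` to the next. -/
lemma step (Z : ℕ → ℚ_[2]) (hZ : Rec Z) (k t : ℕ) (ht : 1 ≤ t) (W V : ℤ_[2])
    (h0 : Z (t * 2 ^ k) = 16 * (((2 : ℕ) ^ k : ℕ) : ℚ_[2]) ^ 2 * (W : ℚ_[2]))
    (hV : (t : ℤ_[2]) ^ 2 * V = W * ((t : ℤ_[2]) ^ 2 + 16 * W)) :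
    (∃ b : ℤ_[2], Z ((t + 1) * 2 ^ k)
      = 16 * (((2 : ℕ) ^ k : ℕ) : ℚ_[2]) ^ 2 * ((V * (1 + 64 * b) : ℤ_[2]) : ℚ_[2])) ∧
    (∀ n, t * 2 ^ k < n → n ≤ (t + 1) * 2 ^ k → ∃ U : ℤ_[2],
      Z n = 16 * (((2 : ℕ) ^ k : ℕ) : ℚ_[2]) ^ 2 * (U : ℚ_[2])) := by
  have hpos : 0 < 2 ^ k := Nat.pos_of_ne_zero (by positivity)
  have h1 : Z (t * 2 ^ k + 1) = 16 * (((2 : ℕ) ^ k : ℕ) : ℚ_[2]) ^ 2 * (V : ℚ_[2]) := by
    have hn1 : 1 ≤ t * 2 ^ k := Nat.mul_pos ht hpos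
    have hrec := hZ (t * 2 ^ k) hn1
    have ht0 : (t : ℚ_[2]) ≠ 0 := by
      have : t ≠ 0 := by omega
      exact_mod_cast this
    have hk0 : (((2 : ℕ) ^ k : ℕ) : ℚ_[2]) ≠ 0 := by
      have : (2 : ℕ) ^ k ≠ 0 := by positivity
      exact_mod_cast this
    have hV' : (t : ℚ_[2]) ^ 2 * (V : ℚ_[2]) = (W : ℚ_[2]) * ((t : ℚ_[2]) ^ 2 + 16 * (W : ℚ_[2])) := by
      have := congrArg (fun x : ℤ_[2] => (x : ℚ_[2])) hV
      push_cast at this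
      exact this
    rw [h0] at hrec
    have hc : Z (t * 2 ^ k + 1) * ((t : ℚ_[2]) ^ 2 * (((2 : ℕ) ^ k : ℕ) : ℚ_[2]) ^ 2)
        = (16 * (((2 : ℕ) ^ k : ℕ) : ℚ_[2]) ^ 2 * (V : ℚ_[2]))
          * ((t : ℚ_[2]) ^ 2 * (((2 : ℕ) ^ k : ℕ) : ℚ_[2]) ^ 2) := by
      rw [Nat.cast_mul] at hrec
      linear_combination hrec - 16 * (((2 : ℕ) ^ k : ℕ) : ℚ_[2]) ^ 4 * hV'
    exact mul_right_cancel₀ (mul_ne_zero (pow_ne_zero 2 ht0) (pow_ne_zero 2 hk0)) hc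
  have hs := seg Z hZ k t V h1
  constructor
  · obtain ⟨b, hb⟩ := hs (2 ^ k) hpos le_rfl
    refine ⟨b, ?_⟩
    rw [add_mul, one_mul]
    exact hb
  · intro n hn1 hn2
    rw [add_mul, one_mul] at hn2
    obtain ⟨b, hb⟩ := hs (n - t * 2 ^ k) (by omega) (by omega)
    refine ⟨V * (1 + 64 * b), ?_⟩
    rw [← hb]
    congr 1
    omega

end Pool.Agent.Work.MP_d9e015_nt
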