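import Mathlib
import Pool.Agent.Work.MP_d9e015_nt.Block

set_option autoImplicit false

namespace Pool.Agent.Work.MP_d9e015_nt

open PadicInt

lemma unit_one_add_two (c : ℤ_[2]) : IsUnit (1 + 2 * c) := by
  rw [PadicInt.isUnit_iff]
  by_contra hne
  have h1 : ‖(1 + 2 * c : ℤ_[2])‖ < 1 := lt_of_le_of_ne (PadicInt.norm_le_one _) hne
  have h2 : ‖(2 * c : ℤ_[2])‖ < 1 := by
    rw [PadicInt.norm_lt_one_iff_dvd]
    exact ⟨c, by push_cast; ring⟩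
  rw [PadicInt.norm_lt_one_iff_dvd] at h1 h2
  have h3 : ((2 : ℕ) : ℤ_[2]) ∣ 1 := by
    have h4 := dvd_sub h1 h2
    simpa using h4
  have h5 : IsUnit ((2 : ℕ) : ℤ_[2]) := isUnit_of_dvd_one h3
  rw [PadicInt.isUnit_iff] at h5
  have h6 : ‖((2 : ℕ) : ℤ_[2])‖ = (2 : ℝ)⁻¹ := by
    have := PadicInt.norm_p (p := 2)
    simpa using this
  rw [h6] at h5
  norm_num at h5

/-- The state predicate at a multiple of the block unit `2^k`. -/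
def At (Z : ℕ → ℚ_[2]) (k t : ℕ) (W : ℤ_[2]) : Prop :=
  Z (t * 2 ^ k) = 16 * (((2 : ℕ) ^ k : ℕ) : ℚ_[2]) ^ 2 * (W : ℚ_[2])

/-- All terms in a segment are in `16 (2^k)^2 ℤ_2`. -/
def Seg (Z : ℕ → ℚ_[2]) (k t : ℕ) : Prop :=
  ∀ n, t * 2 ^ k < n → n ≤ (t + 1) * 2 ^ k → ∃ U : ℤ_[2],
      Z n = 16 * (((2 : ℕ) ^ k : ℕ) : ℚ_[2]) ^ 2 * (U : ℚ_[2])

lemma stepA (Z : ℕ → ℚ_[2]) (hZ : Rec Z) (k t : ℕ) (ht : 1 ≤ t) (W V : ℤ_[2])
    (h0 : At Z k t W) (hV : (t : ℤ_[2]) ^ 2 * V = W * ((t : ℤ_[2]) ^ 2 + 16 * W)) :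
    (∃ b : ℤ_[2], At Z k (t + 1) (V * (1 + 64 * b))) ∧ Seg Z k t :=
  step Z hZ k t ht W V h0 hV

lemma phi64 (V b : ℤ_[2]) : toZModPow 5 (V * (1 + 64 * b)) = toZModPow 5 V := by
  have h : (toZModPow 5 (64 : ℤ_[2]) : ZMod (2 ^ 5)) = 0 := by
    have : (64 : ℤ_[2]) = ((64 : ℕ) : ℤ_[2]) := by norm_num
    rw [this, map_natCast]
    decide +kernel
  rw [map_mul, map_add, map_mul, h]
  simp

lemma phi_inv (m : ℕ) (i : ℤ_[2]) (h : (m : ℤ_[2]) * i = 1) :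
    ((m : ZMod (2 ^ 5))) * toZModPow 5 i = 1 := by
  have := congrArg (toZModPow 5) h
  rw [map_mul, map_natCast, map_one] at this
  exact this

lemma phi_num (m : ℕ) : toZModPow 5 ((m : ℕ) : ℤ_[2]) = (m : ZMod (2 ^ 5)) := map_natCast _ _

lemma stepB (Z : ℕ → ℚ_[2]) (hZ : Rec Z) (k t : ℕ) (ht : 1 ≤ t) (W V : ℤ_[2])
    (h0 : At Z k t W) (hV : (t : ℤ_[2]) ^ 2 * V = W * ((t : ℤ_[2]) ^ 2 + 16 * W)) :
    (∃ W' b : ℤ_[2], At Z k (t + 1) W' ∧ W' = V * (1 + 64 * b) ∧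
      toZModPow 5 W' = toZModPow 5 V) ∧ Seg Z k t := by
  obtain ⟨⟨b, hb⟩, hs⟩ := step Z hZ k t ht W V h0 hV
  exact ⟨⟨_, b, hb, rfl, phi64 V b⟩, hs⟩

/-- the odd case: `V = W + 16 W^2 i^2` where `t i = 1`. -/
lemma stepOdd (Z : ℕ → ℚ_[2]) (hZ : Rec Z) (k t : ℕ) (ht : Odd t) (W : ℤ_[2])
    (h0 : At Z k t W) :
    (∃ W' b i : ℤ_[2], At Z k (t + 1) W' ∧ W' = (W + 16 * W ^ 2 * i ^ 2) * (1 + 64 * b) ∧
      toZModPow 5 W' = toZModPow 5 W + 16 * toZModPow 5 W ^ 2 * toZModPow 5 i ^ 2 ∧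
      (t : ZMod (2 ^ 5)) * toZModPow 5 i = 1) ∧ Seg Z k t := by
  obtain ⟨i, hi⟩ := odd_unit t ht
  obtain ⟨⟨W', b, h1, h2, h3⟩, hs⟩ := stepB Z hZ k t ht.pos W (W + 16 * W ^ 2 * i ^ 2) h0
    (by linear_combination (16 * W ^ 2 * ((t : ℤ_[2]) * i + 1)) * hi)
  refine ⟨⟨W', b, i, h1, h2, ?_, phi_inv t i hi⟩, hs⟩
  rw [h3, map_add, map_mul, map_mul, map_pow, map_pow]
  congr 3
  exact phi_num 16

/-- the case `t = 2m`, `m` odd: `V = W + 4 W^2 i^2` where `m i = 1`. -/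
lemma stepTwo (Z : ℕ → ℚ_[2]) (hZ : Rec Z) (k m : ℕ) (hm : Odd m) (W : ℤ_[2])
    (h0 : At Z k (2 * m) W) :
    (∃ W' b i : ℤ_[2], At Z k (2 * m + 1) W' ∧ W' = (W + 4 * W ^ 2 * i ^ 2) * (1 + 64 * b) ∧
      toZModPow 5 W' = toZModPow 5 W + 4 * toZModPow 5 W ^ 2 * toZModPow 5 i ^ 2 ∧
      (m : ZMod (2 ^ 5)) * toZModPow 5 i = 1) ∧ Seg Z k (2 * m) := by
  obtain ⟨i, hi⟩ := odd_unit m hm
  have hpos : 1 ≤ 2 * m := by have := hm.pos; omega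
  obtain ⟨⟨W', b, h1, h2, h3⟩, hs⟩ := stepB Z hZ k (2 * m) hpos W (W + 4 * W ^ 2 * i ^ 2) h0
    (by push_cast; linear_combination (16 * W ^ 2 * ((m : ℤ_[2]) * i + 1)) * hi)
  refine ⟨⟨W', b, i, h1, h2, ?_, phi_inv m i hi⟩, hs⟩
  rw [h3, map_add, map_mul, map_mul, map_pow, map_pow]
  congr 3
  exact phi_num 4

/-- the case `t = 4m`, `m` odd: `V = W + W^2 i^2` where `m i = 1`. -/
lemma stepFour (Z : ℕ → ℚ_[2]) (hZ : Rec Z) (k m : ℕ) (hm : Odd m) (W : ℤ_[2])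
    (h0 : At Z k (4 * m) W) :
    (∃ W' b i : ℤ_[2], At Z k (4 * m + 1) W' ∧ W' = (W + W ^ 2 * i ^ 2) * (1 + 64 * b) ∧
      (m : ℤ_[2]) * i = 1) ∧ Seg Z k (4 * m) := by
  obtain ⟨i, hi⟩ := odd_unit m hm
  have hpos : 1 ≤ 4 * m := by have := hm.pos; omega
  obtain ⟨⟨W', b, h1, h2, h3⟩, hs⟩ := stepB Z hZ k (4 * m) hpos W (W + W ^ 2 * i ^ 2) h0
    (by push_cast; linear_combination (16 * W ^ 2 * ((m : ℤ_[2]) * i + 1)) * hi)
  exact ⟨⟨W', b, i, h1, h2, hi⟩, hs⟩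

/-- First part of the chain: `t = 16, 17, 18, 19`. -/
lemma part1 (Z : ℕ → ℚ_[2]) (hZ : Rec Z) (k : ℕ) (w : ℤ_[2]) (hw : IsUnit w)
    (h0 : At Z k 16 (4 * w)) :
    ∃ W : ℤ_[2], At Z k 20 W ∧ (∃ a : ℤ_[2], W = 1 + 8 * a) ∧
      Seg Z k 16 ∧ Seg Z k 17 ∧ Seg Z k 18 ∧ Seg Z k 19 := by
  obtain ⟨w', hw'⟩ := hw.exists_right_inv
  have hφw : toZModPow 5 w * toZModPow 5 w' = 1 := by
    rw [← map_mul, hw', map_one]
  obtain ⟨⟨W17, b16, h17, -, r17⟩, s16⟩ := stepB Z hZ k 16 (by norm_num) _ (4 * w + w ^ 2) h0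
    (by push_cast; ring)
  have r17' : toZModPow 5 W17 = 4 * toZModPow 5 w + toZModPow 5 w ^ 2 := by
    rw [r17, map_add, map_mul, map_pow]
    congr 2
    exact phi_num 4
  obtain ⟨⟨W18, b17, i17, h18, -, r18, hi17⟩, s17⟩ := stepOdd Z hZ k 17 (by decide) W17 h17
  obtain ⟨⟨W19, b18, i9, h19, -, r19, hi9⟩, s18⟩ := stepTwo Z hZ k 9 (by decide) W18 h18
  obtain ⟨⟨W20, b19, i19, h20, -, r20, hi19⟩, s19⟩ := stepOdd Z hZ k 19 (by decide) W19 h19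
  refine ⟨W20, h20, ?_, s16, s17, s18, s19⟩
  have f17 : toZModPow 5 W17 = 5 ∨ toZModPow 5 W17 = 13 ∨ toZModPow 5 W17 = 21
      ∨ toZModPow 5 W17 = 29 := by
    rw [r17']
    revert hφw
    generalize (toZModPow 5 w : ZMod (2 ^ 5)) = u
    generalize (toZModPow 5 w' : ZMod (2 ^ 5)) = u'
    revert u u'
    decide +kernel
  have f18 : toZModPow 5 W18 = 5 ∨ toZModPow 5 W18 = 13 ∨ toZModPow 5 W18 = 21
      ∨ toZModPow 5 W18 = 29 := by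
    rw [r18]
    revert hi17 f17
    generalize (toZModPow 5 W17 : ZMod (2 ^ 5)) = u
    generalize (toZModPow 5 i17 : ZMod (2 ^ 5)) = u'
    revert u u'
    decide +kernel
  have f19 : toZModPow 5 W19 = 9 ∨ toZModPow 5 W19 = 17 ∨ toZModPow 5 W19 = 25
      ∨ toZModPow 5 W19 = 1 := by
    rw [r19]
    revert hi9 f18
    generalize (toZModPow 5 W18 : ZMod (2 ^ 5)) = u
    generalize (toZModPow 5 i9 : ZMod (2 ^ 5)) = u'
    revert u u'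
    decide +kernel
  have f20 : toZModPow 5 W20 = 9 ∨ toZModPow 5 W20 = 17 ∨ toZModPow 5 W20 = 25
      ∨ toZModPow 5 W20 = 1 := by
    rw [r20]
    revert hi19 f19
    generalize (toZModPow 5 W19 : ZMod (2 ^ 5)) = u
    generalize (toZModPow 5 i19 : ZMod (2 ^ 5)) = u'
    revert u u'
    decide +kernel
  rcases f20 with h | h | h | h
  · obtain ⟨c, hc⟩ := res 5 W20 9 (by rw [h]; decide)
    exact ⟨1 + 4 * c, by rw [hc]; push_cast; ring⟩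
  · obtain ⟨c, hc⟩ := res 5 W20 17 (by rw [h]; decide)
    exact ⟨2 + 4 * c, by rw [hc]; push_cast; ring⟩
  · obtain ⟨c, hc⟩ := res 5 W20 25 (by rw [h]; decide)
    exact ⟨3 + 4 * c, by rw [hc]; push_cast; ring⟩
  · obtain ⟨c, hc⟩ := res 5 W20 1 (by rw [h]; decide)
    exact ⟨4 * c, by rw [hc]; push_cast; ring⟩

lemma stepOddS (Z : ℕ → ℚ_[2]) (hZ : Rec Z) (k t s : ℕ) (ht : Odd t) (w : ℤ_[2])
    (h0 : At Z k t ((s : ℤ_[2]) * w)) :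
    (∃ w' b i : ℤ_[2], At Z k (t + 1) ((s : ℤ_[2]) * w') ∧
      w' = (w + 16 * s * w ^ 2 * i ^ 2) * (1 + 64 * b) ∧
      toZModPow 5 w' = toZModPow 5 w + 16 * s * toZModPow 5 w ^ 2 * toZModPow 5 i ^ 2 ∧
      (t : ZMod (2 ^ 5)) * toZModPow 5 i = 1) ∧ Seg Z k t := by
  obtain ⟨i, hi⟩ := odd_unit t ht
  obtain ⟨⟨W', b, h1, h2, -⟩, hs⟩ := stepB Z hZ k t ht.pos ((s : ℤ_[2]) * w)
    ((s : ℤ_[2]) * (w + 16 * s * w ^ 2 * i ^ 2)) h0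
    (by linear_combination (16 * (s : ℤ_[2]) ^ 2 * w ^ 2 * ((t : ℤ_[2]) * i + 1)) * hi)
  refine ⟨⟨(w + 16 * s * w ^ 2 * i ^ 2) * (1 + 64 * b), b, i, ?_, rfl, ?_, phi_inv t i hi⟩, hs⟩
  · rw [h2, mul_assoc] at h1
    exact h1
  · rw [phi64, map_add, map_mul, map_mul, map_mul, map_pow, map_pow, map_natCast]
    congr 4
    exact phi_num 16

lemma stepTwoS (Z : ℕ → ℚ_[2]) (hZ : Rec Z) (k m s : ℕ) (hm : Odd m) (w : ℤ_[2])
    (h0 : At Z k (2 * m) ((s : ℤ_[2]) * w)) :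
    (∃ w' b i : ℤ_[2], At Z k (2 * m + 1) ((s : ℤ_[2]) * w') ∧
      w' = (w + 4 * s * w ^ 2 * i ^ 2) * (1 + 64 * b) ∧
      toZModPow 5 w' = toZModPow 5 w + 4 * s * toZModPow 5 w ^ 2 * toZModPow 5 i ^ 2 ∧
      (m : ZMod (2 ^ 5)) * toZModPow 5 i = 1) ∧ Seg Z k (2 * m) := by
  obtain ⟨i, hi⟩ := odd_unit m hm
  have hpos : 1 ≤ 2 * m := by have := hm.pos; omega
  obtain ⟨⟨W', b, h1, h2, -⟩, hs⟩ := stepB Z hZ k (2 * m) hpos ((s : ℤ_[2]) * w)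
    ((s : ℤ_[2]) * (w + 4 * s * w ^ 2 * i ^ 2)) h0
    (by push_cast
        linear_combination (16 * (s : ℤ_[2]) ^ 2 * w ^ 2 * ((m : ℤ_[2]) * i + 1)) * hi)
  refine ⟨⟨(w + 4 * s * w ^ 2 * i ^ 2) * (1 + 64 * b), b, i, ?_, rfl, ?_, phi_inv m i hi⟩, hs⟩
  · rw [h2, mul_assoc] at h1
    exact h1
  · rw [phi64, map_add, map_mul, map_mul, map_mul, map_pow, map_pow, map_natCast]
    congr 4
    exact phi_num 4

/-- Second part of the chain: `t = 20, ..., 24`. -/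
lemma part2 (Z : ℕ → ℚ_[2]) (hZ : Rec Z) (k : ℕ) (W a : ℤ_[2]) (ha : W = 1 + 8 * a)
    (h0 : At Z k 20 W) :
    ∃ W' : ℤ_[2], At Z k 25 W' ∧ toZModPow 5 W' = 27 ∧
      Seg Z k 20 ∧ Seg Z k 21 ∧ Seg Z k 22 ∧ Seg Z k 23 ∧ Seg Z k 24 := by
  obtain ⟨⟨W21, b, i, h21, hW21, hi⟩, s20⟩ := stepFour Z hZ k 5 (by decide) W h0
  have hi' := phi_inv 5 i hi
  -- W21 = 2 w21
  obtain ⟨w21, hw21, r21⟩ : ∃ w21 : ℤ_[2], W21 = ((2 : ℕ) : ℤ_[2]) * w21 ∧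
      toZModPow 5 w21 = (1 + 8 * toZModPow 5 a) * (13 + 4 * toZModPow 5 a) * toZModPow 5 i ^ 2 := by
    refine ⟨(1 + 8 * a) * (13 + 4 * a) * i ^ 2 * (1 + 64 * b), ?_, ?_⟩
    · rw [hW21, ha]
      push_cast at hi ⊢
      linear_combination (-(1 + 8 * a) * (1 + 64 * b) * (5 * i + 1)) * hi
    · have e8 : (toZModPow 5 (8 : ℤ_[2]) : ZMod (2 ^ 5)) = 8 := phi_num 8
      have e13 : (toZModPow 5 (13 : ℤ_[2]) : ZMod (2 ^ 5)) = 13 := phi_num 13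
      have e4 : (toZModPow 5 (4 : ℤ_[2]) : ZMod (2 ^ 5)) = 4 := phi_num 4
      rw [phi64, map_mul, map_mul, map_add, map_add, map_mul, map_mul, map_pow, map_one, e8, e13, e4]
  have f21 : (toZModPow 5 w21 : ZMod (2 ^ 5)) * 8 = 8 := by
    rw [r21]
    revert hi'
    generalize (toZModPow 5 a : ZMod (2 ^ 5)) = u
    generalize (toZModPow 5 i : ZMod (2 ^ 5)) = u'
    revert u u'
    decide +kernel
  rw [hw21] at h21
  obtain ⟨⟨w22, -, i21, h22, -, r22, hi21⟩, s21⟩ := stepOddS Z hZ k 21 2 (by decide) w21 h21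
  obtain ⟨⟨w23, -, i22, h23, -, r23, hi22⟩, s22⟩ := stepTwoS Z hZ k 11 2 (by decide) w22 h22
  obtain ⟨⟨w24, -, i23, h24, -, r24, hi23⟩, s23⟩ := stepOddS Z hZ k 23 2 (by decide) w23 h23
  have f22 : (toZModPow 5 w22 : ZMod (2 ^ 5)) * 8 = 8 := by
    rw [r22]
    revert hi21 f21
    generalize (toZModPow 5 w21 : ZMod (2 ^ 5)) = u
    generalize (toZModPow 5 i21 : ZMod (2 ^ 5)) = u'
    revert u u'
    decide +kernel
  have f23 : (toZModPow 5 w23 : ZMod (2 ^ 5)) * 8 = 8 := by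
    rw [r23]
    revert hi22 f22
    generalize (toZModPow 5 w22 : ZMod (2 ^ 5)) = u
    generalize (toZModPow 5 i22 : ZMod (2 ^ 5)) = u'
    revert u u'
    decide +kernel
  have f24 : (toZModPow 5 w24 : ZMod (2 ^ 5)) * 8 = 8 := by
    rw [r24]
    revert hi23 f23
    generalize (toZModPow 5 w23 : ZMod (2 ^ 5)) = u
    generalize (toZModPow 5 i23 : ZMod (2 ^ 5)) = u'
    revert u u'
    decide +kernel
  obtain ⟨j, hj⟩ := odd_unit 3 (by decide)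
  have hj' := phi_inv 3 j hj
  obtain ⟨⟨W25, b25, h25, -, r25⟩, s24⟩ := stepB Z hZ k 24 (by norm_num) _
    (2 * w24 + w24 ^ 2 * j ^ 2) h24
    (by push_cast at hj ⊢; linear_combination (64 * w24 ^ 2 * (3 * j + 1)) * hj)
  refine ⟨W25, h25, ?_, s20, s21, s22, s23, s24⟩
  rw [r25, map_add, map_mul, map_mul, map_pow, map_pow]
  have h2 : (toZModPow 5 (2 : ℤ_[2]) : ZMod (2 ^ 5)) = 2 := phi_num 2
  rw [h2]
  revert hj' f24
  generalize (toZModPow 5 w24 : ZMod (2 ^ 5)) = u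
  generalize (toZModPow 5 j : ZMod (2 ^ 5)) = u'
  revert u u'
  decide +kernel

lemma unit_mul_form (w c : ℤ_[2]) (hw : IsUnit w) : IsUnit (w * (1 + 2 * c)) :=
  hw.mul (unit_one_add_two c)

/-- Third part of the chain: `t = 25, ..., 28`. -/
lemma part3 (Z : ℕ → ℚ_[2]) (hZ : Rec Z) (k : ℕ) (W : ℤ_[2]) (hW : toZModPow 5 W = 27)
    (h0 : At Z k 25 W) :
    ∃ w' : ℤ_[2], IsUnit w' ∧ At Z k 29 (((16 : ℕ) : ℤ_[2]) * w') ∧
      Seg Z k 25 ∧ Seg Z k 26 ∧ Seg Z k 27 ∧ Seg Z k 28 := by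
  obtain ⟨⟨W26, -, i25, h26, -, r26, hi25⟩, s25⟩ := stepOdd Z hZ k 25 (by decide) W h0
  obtain ⟨⟨W27, -, i26, h27, -, r27, hi26⟩, s26⟩ := stepTwo Z hZ k 13 (by decide) W26 h26
  obtain ⟨⟨W28, -, i27, h28, -, r28, hi27⟩, s27⟩ := stepOdd Z hZ k 27 (by decide) W27 h27
  obtain ⟨⟨W29, b28, i28, h29, hW29, hi28⟩, s28⟩ := stepFour Z hZ k 7 (by decide) W28 h28
  have f26 : (toZModPow 5 W26 : ZMod (2 ^ 5)) = 11 := by
    rw [r26, hW]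
    revert hi25
    generalize (toZModPow 5 i25 : ZMod (2 ^ 5)) = u'
    revert u'
    decide +kernel
  have f27 : (toZModPow 5 W27 : ZMod (2 ^ 5)) = 15 := by
    rw [r27, f26]
    revert hi26
    generalize (toZModPow 5 i26 : ZMod (2 ^ 5)) = u'
    revert u'
    decide +kernel
  have f28 : (toZModPow 5 W28 : ZMod (2 ^ 5)) = 31 := by
    rw [r28, f27]
    revert hi27
    generalize (toZModPow 5 i27 : ZMod (2 ^ 5)) = u'
    revert u'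
    decide +kernel
  obtain ⟨a, ha⟩ := res 5 W28 31 (by rw [f28]; decide)
  push_cast at ha hi28
  have hi28u : IsUnit i28 := IsUnit.of_mul_eq_one (7 : ℤ_[2]) (by rw [mul_comm]; exact hi28)
  refine ⟨i28 ^ 2 * (1 + 2 * (15 + 16 * a)) * (1 + 2 * (2 + a)) * (1 + 2 * (32 * b28)),
    ?_, ?_, s25, s26, s27, s28⟩
  · exact unit_mul_form _ _ (unit_mul_form _ _ (unit_mul_form _ _ (hi28u.pow 2)))
  · have hEq : W29 = ((16 : ℕ) : ℤ_[2]) * (i28 ^ 2 * (1 + 2 * (15 + 16 * a)) * (1 + 2 * (2 + a))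
        * (1 + 2 * (32 * b28))) := by
      rw [hW29, ha]
      push_cast
      linear_combination (-(31 + 32 * a) * (1 + 64 * b28) * (7 * i28 + 1)) * hi28
    rw [← hEq]
    exact h29

/-- Fourth part of the chain: `t = 29, 30, 31`. -/
lemma part4 (Z : ℕ → ℚ_[2]) (hZ : Rec Z) (k : ℕ) (w : ℤ_[2]) (hw : IsUnit w)
    (h0 : At Z k 29 (((16 : ℕ) : ℤ_[2]) * w)) :
    ∃ w' : ℤ_[2], IsUnit w' ∧ At Z k 32 (((16 : ℕ) : ℤ_[2]) * w') ∧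
      Seg Z k 29 ∧ Seg Z k 30 ∧ Seg Z k 31 := by
  obtain ⟨⟨w30, b29, i29, h30, e30, -, -⟩, s29⟩ := stepOddS Z hZ k 29 16 (by decide) w h0
  obtain ⟨⟨w31, b30, i30, h31, e31, -, -⟩, s30⟩ := stepTwoS Z hZ k 15 16 (by decide) w30 h30
  obtain ⟨⟨w32, b31, i31, h32, e32, -, -⟩, s31⟩ := stepOddS Z hZ k 31 16 (by decide) w31 h31
  have u30 : IsUnit w30 := by
    have : w30 = w * (1 + 2 * (128 * w * i29 ^ 2)) * (1 + 2 * (32 * b29)) := by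
      rw [e30]; push_cast; ring
    rw [this]
    exact unit_mul_form _ _ (unit_mul_form _ _ hw)
  have u31 : IsUnit w31 := by
    have : w31 = w30 * (1 + 2 * (32 * w30 * i30 ^ 2)) * (1 + 2 * (32 * b30)) := by
      rw [e31]; push_cast; ring
    rw [this]
    exact unit_mul_form _ _ (unit_mul_form _ _ u30)
  have u32 : IsUnit w32 := by
    have : w32 = w31 * (1 + 2 * (128 * w31 * i31 ^ 2)) * (1 + 2 * (32 * b31)) := by
      rw [e32]; push_cast; ring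
    rw [this]
    exact unit_mul_form _ _ (unit_mul_form _ _ u31)
  exact ⟨w32, u32, h32, s29, s30, s31⟩

/-- The whole block from `2^(k+4)` to `2^(k+5)`. -/
lemma block (Z : ℕ → ℚ_[2]) (hZ : Rec Z) (k : ℕ) (w : ℤ_[2]) (hw : IsUnit w)
    (h0 : At Z k 16 (4 * w)) :
    (∃ w' : ℤ_[2], IsUnit w' ∧ At Z (k + 1) 16 (4 * w')) ∧
      ∀ n, 16 * 2 ^ k < n → n ≤ 32 * 2 ^ k → ∃ U : ℤ_[2],
        Z n = 16 * (((2 : ℕ) ^ k : ℕ) : ℚ_[2]) ^ 2 * (U : ℚ_[2]) := by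
  obtain ⟨W20, h20, ⟨a, ha⟩, s16, s17, s18, s19⟩ := part1 Z hZ k w hw h0
  obtain ⟨W25, h25, r25, s20, s21, s22, s23, s24⟩ := part2 Z hZ k W20 a ha h20
  obtain ⟨w29, u29, h29, s25, s26, s27, s28⟩ := part3 Z hZ k W25 r25 h25
  obtain ⟨w32, u32, h32, s29, s30, s31⟩ := part4 Z hZ k w29 u29 h29
  constructor
  · refine ⟨w32, u32, ?_⟩
    unfold At at h32 ⊢
    have h1 : 16 * 2 ^ (k + 1) = 32 * 2 ^ k := by rw [pow_succ]; ring
    rw [h1, h32]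
    have h16 : ((16 : ℤ_[2]) : ℚ_[2]) = 16 := rfl
    have h4 : ((4 : ℤ_[2]) : ℚ_[2]) = 4 := rfl
    push_cast
    rw [h4, h16, pow_succ (2 : ℚ_[2]) k]
    ring
  · intro n hn1 hn2
    have hpos : 0 < 2 ^ k := by positivity
    have hcases : ∃ t, 16 ≤ t ∧ t < 32 ∧ t * 2 ^ k < n ∧ n ≤ (t + 1) * 2 ^ k := by
      refine ⟨(n - 1) / 2 ^ k, ?_, ?_, ?_, ?_⟩
      · rw [Nat.le_div_iff_mul_le hpos]; omega
      · rw [Nat.div_lt_iff_lt_mul hpos]; omega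
      · have := Nat.div_mul_le_self (n - 1) (2 ^ k)
        omega
      · have := Nat.lt_div_mul_add (a := n - 1) hpos
        rw [add_mul, one_mul]
        omega
    obtain ⟨t, ht1, ht2, ht3, ht4⟩ := hcases
    have hS : Seg Z k t := by
      interval_cases t <;> assumption
    exact hS n ht3 ht4

end Pool.Agent.Work.MP_d9e015_nt
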