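import Mathlib
import Pool.Agent.Work.MP_d9e015_nt.Chain

set_option autoImplicit false

namespace Pool.Agent.Work.MP_d9e015_nt

open PadicInt

/-- number of trailing zeros, with fuel -/
def tz : ℕ → ℕ → ℕ
  | 0, _ => 0
  | f + 1, n => if n % 2 = 0 then tz f (n / 2) + 1 else 0

/-- Newton iteration for the inverse of an odd `m` modulo `2 ^ 512` -/
def inv : ℕ → ℕ → ℕ → ℕ
  | 0, _, i => i
  | f + 1, m, i => inv f m (i * (2 + 2 ^ 512 - (m * i) % 2 ^ 512) % 2 ^ 512)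

/-- one computation step: candidate for `x_{n+1}` modulo `2 ^ (P - t)` -/
def nxt (n c P t : ℕ) : ℕ :=
  ((c * (c + n)) % 2 ^ P / 2 ^ t) * inv 8 ((n + 1) / 2 ^ t) ((n + 1) / 2 ^ t) % 2 ^ (P - t)

/-- run the computation, checking every step -/
def run : ℕ → ℕ → ℕ → ℕ → Option (ℕ × ℕ)
  | 0, _, c, P => some (c, P)
  | f + 1, n, c, P =>
    let t := tz 20 (n + 1)
    let c' := nxt n c P t
    if t ≤ P ∧ (n + 1) = 2 ^ t * ((n + 1) / 2 ^ t) ∧ ((n + 1) / 2 ^ t) % 2 = 1 ∧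
        (c' * (n + 1)) % 2 ^ P = (c * (c + n)) % 2 ^ P then
      run f (n + 1) c' (P - t)
    else none

lemma run_sound (X : ℕ → ℚ_[2])
    (hX : ∀ n : ℕ, 1 ≤ n → ((n : ℚ_[2]) + 1) * X (n + 1) = X n * (X n + n)) :
    ∀ (f n c P : ℕ) (r : ℕ × ℕ), 1 ≤ n → run f n c P = some r →
      (∃ b : ℤ_[2], X n = (((c : ℤ_[2]) + 2 ^ P * b : ℤ_[2]) : ℚ_[2])) →
      (∀ j ≤ f, ∃ U : ℤ_[2], X (n + j) = (U : ℚ_[2])) ∧
      (∃ b : ℤ_[2], X (n + f) = (((r.1 : ℤ_[2]) + 2 ^ r.2 * b : ℤ_[2]) : ℚ_[2])) := by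
  intro f
  induction f with
  | zero =>
    intro n c P r hn hr hb
    simp only [run, Option.some.injEq] at hr
    subst hr
    obtain ⟨b, hb⟩ := hb
    refine ⟨?_, ⟨b, hb⟩⟩
    intro j hj
    have : j = 0 := by omega
    subst this
    exact ⟨_, hb⟩
  | succ f ih =>
    intro n c P r hn hr hb
    simp only [run] at hr
    split_ifs at hr with hcond
    obtain ⟨htP, hdec, hodd, hcong⟩ := hcond
    set t := tz 20 (n + 1) with ht
    set c' := nxt n c P t with hc'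
    set m := (n + 1) / 2 ^ t with hm
    clear_value m
    clear_value c'
    clear_value t
    have hmodd : Odd m := Nat.odd_iff.mpr hodd
    obtain ⟨i, hi⟩ := odd_unit m hmodd
    obtain ⟨b, hb⟩ := hb
    obtain ⟨Q, hQ⟩ := Nat.exists_eq_add_of_le htP
    have hQ' : P - t = Q := by omega
    -- the next value
    have hnext : ∃ b' : ℤ_[2], X (n + 1) = (((c' : ℤ_[2]) + 2 ^ (P - t) * b' : ℤ_[2]) : ℚ_[2]) := by
      have hcongZ : ∃ z : ℤ, (c * (c + n) : ℤ) - c' * (n + 1) = 2 ^ P * z := by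
        have h1 : ((c' * (n + 1) : ℕ) : ℤ) ≡ ((c * (c + n) : ℕ) : ℤ) [ZMOD ((2 ^ P : ℕ) : ℤ)] := by
          rw [Int.natCast_modEq_iff]
          exact hcong
        obtain ⟨z, hz⟩ := h1.dvd
        refine ⟨z, ?_⟩
        push_cast at hz
        linarith
      obtain ⟨z, hz⟩ := hcongZ
      have hzZ : (c : ℤ_[2]) * ((c : ℤ_[2]) + n) - c' * ((n : ℤ_[2]) + 1) = 2 ^ P * (z : ℤ_[2]) := by
        have := congrArg (fun x : ℤ => (x : ℤ_[2])) hz
        push_cast at this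
        exact this
      have hdecZ : ((n : ℤ_[2]) + 1) = 2 ^ t * (m : ℤ_[2]) := by
        have := congrArg (fun x : ℕ => (x : ℤ_[2])) hdec
        push_cast at this
        exact this
      have hP : (2 : ℤ_[2]) ^ P = 2 ^ t * 2 ^ Q := by rw [hQ, pow_add]
      -- b' = (z + b (2c + n) + 2^P b^2) * i
      refine ⟨(z + b * (2 * c + n) + 2 ^ P * b ^ 2) * i, ?_⟩
      rw [hQ']
      have hn1 : ((n : ℚ_[2]) + 1) ≠ 0 := by
        have : (n + 1 : ℕ) ≠ 0 := by omega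
        exact_mod_cast this
      apply mul_left_cancel₀ hn1
      rw [hX n hn, hb]
      have key : ((c : ℤ_[2]) + 2 ^ P * b) * (((c : ℤ_[2]) + 2 ^ P * b) + n)
          = ((n : ℤ_[2]) + 1) * ((c' : ℤ_[2]) + 2 ^ Q * ((z + b * (2 * c + n) + 2 ^ P * b ^ 2) * i)) := by
        have h2 : ((n : ℤ_[2]) + 1) * (2 ^ Q * ((z + b * (2 * c + n) + 2 ^ P * b ^ 2) * i))
            = 2 ^ P * (z + b * (2 * c + n) + 2 ^ P * b ^ 2) := by
          rw [hdecZ, hP]
          linear_combination (2 ^ t * 2 ^ Q * ((z : ℤ_[2]) + b * (2 * c + n)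
            + 2 ^ t * 2 ^ Q * b ^ 2)) * hi
        rw [mul_add ((n : ℤ_[2]) + 1), h2]
        linear_combination hzZ
      have key' := congrArg (fun x : ℤ_[2] => (x : ℚ_[2])) key
      push_cast at key' ⊢
      exact key'
    obtain ⟨h1, h2⟩ := ih (n + 1) c' (P - t) r (by omega) hr hnext
    constructor
    · intro j hj
      rcases Nat.eq_zero_or_pos j with h0 | h0
      · subst h0
        exact ⟨_, hb⟩
      · obtain ⟨U, hU⟩ := h1 (j - 1) (by omega)
        refine ⟨U, ?_⟩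
        rw [← hU]
        congr 1
        omega
    · obtain ⟨b', hb'⟩ := h2
      refine ⟨b', ?_⟩
      rw [← hb']
      congr 1
      omega

lemma run_check : (run 255 1 2 300).map (fun r => (r.1 % 128, r.2)) = some (64, 45) := by
  decide +kernel

end Pool.Agent.Work.MP_d9e015_nt
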